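import Mathlib
import Pool.Agent.Q8.KS.Share4

/-!
MP_c8dfda_nt, Q1: in every fibre of a finite morphism to a projective space a positive proportion
of the points have the maximal arithmetic degree.
-/

set_option autoImplicit false

namespace Pool.Agent.Results.MP_c8dfda_nt.EveryFibre

open Pool.Agent.Q8.KS

/-- Let `X` be a projective variety over a number field `K` with absolute Galois group `G`, let
`π : W → X` be a surjective morphism (for example the identity), `m = dim W`, and let `H₀` be an
ample class on `W`. There is `κ > 0` such that for all finite morphisms `φ : W → ℙ^m` of degree `N`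
with `φ^* O(1)` numerically a positive multiple of `H₀`, for all endomorphisms `f` of `X` with
`δ = δ(f) > 1` and all ample classes `D` on `X` with a logarithmic height `h_D` there is a constant
`C` with the following properties.

(1) For every point `t` of `ℙ^m` with `h(t) ≥ C` at least `κ N` of the `N` points `w` of the fibre
`φ⁻¹(t)`, counted with multiplicity, satisfy `lim max(1, h_D(f^k(π(w))))^(1/k) = δ` and
`h_D(f^k(π(w))) ≥ C⁻¹ δ^k h(t)` for all `k`.

(2) Every point `w` with `[K(w) : K(φ(w))] > (1 - κ) N` and `h(φ(w)) ≥ C` satisfies the limit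
formula; and for every `e` it fails for only finitely many points `w` with
`[K(w) : K(φ(w))] > (1 - κ) N` and `[K(φ(w)) : K] ≤ e`. -/
theorem result {G : Type} [Group G] (X W : Variety G) (π : Morphism W X)
    (hπ : Function.Surjective π.pt) (H₀ : W.Pic) (hH₀ : W.IsAmple H₀) :
    ∃ κ : ℝ, 0 < κ ∧ ∀ φ : Cover W, (∃ t : ℝ, 0 < t ∧ W.cls φ.H = t • W.cls H₀) →
      ∀ (f : Morphism X X) (D : X.Pic) (h_D : X.Pt → ℝ) (δ : ℝ), X.IsAmple D →
      X.IsHeight D h_D → 1 < δ → IsDynamicalDegree f D δ → ∃ C : ℝ, 0 < C ∧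
        (∀ t : φ.P, C ≤ φ.h t →
          AtLeast φ t (κ * φ.N) (fun w => IsArithmeticDegree f h_D (π.pt w) δ ∧
            ∀ k : ℕ, δ ^ k * φ.h t ≤ C * h_D (f.pt^[k] (π.pt w)))) ∧
        (∀ w : W.Pt, (1 - κ) * φ.N < φ.relDeg w → C ≤ φ.h (φ.φ w) →
          IsArithmeticDegree f h_D (π.pt w) δ) ∧
        ∀ e : ℕ, {w : W.Pt | (1 - κ) * φ.N < φ.relDeg w ∧
          (MulAction.orbit G (φ.φ w)).ncard ≤ e ∧
            ¬ IsArithmeticDegree f h_D (π.pt w) δ}.Finite :=
  share_every π hπ hH₀

end Pool.Agent.Results.MP_c8dfda_nt.EveryFibre
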